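import Pool.Agent.Q139.Aztec.Final

namespace Pool.Agent.Results.MP_b90a94_co.KnightPair

open Pool.Agent.Helper848 Pool.Agent.Q139.Aztec Pool.Agent.Helper848.AztecDet

/-- The region `D_n`. A pair of integers `(a, b)` stands for the closed unit square
`[a, a+1] × [b, b+1]`, with centre `(a + 1/2, b + 1/2)`. The square belongs to the Aztec diamond of
order `n` iff `|a + 1/2| + |b + 1/2| ≤ n`, that is `|2a+1| + |2b+1| ≤ 2n`; the squares `(-1, -1)`
and `(0, 1)`, with centres `(-1/2, -1/2)` and `(1/2, 3/2)`, are deleted. -/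
noncomputable def D (n : ℕ) : Finset (ℤ × ℤ) :=
  ((Finset.Icc (-(n : ℤ)) n ×ˢ Finset.Icc (-(n : ℤ)) n).filter
    fun p => |2 * p.1 + 1| + |2 * p.2 + 1| ≤ 2 * n) \ {(-1, -1), (0, 1)}

/-- The number of domino tilings of `D_n`. -/
noncomputable def T (n : ℕ) : ℕ := numTilings (D n)

/-- The square of the normalised central binomial coefficient, `(C(2m, m) / 4^m)^2`. -/
noncomputable def x (m : ℕ) : ℚ := ((Nat.centralBinom m : ℚ) / 4 ^ m) ^ 2

theorem D_eq (n : ℕ) : D n = knightRegion n := by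
  unfold D knightRegion
  congr 1
  ext p
  rw [mem_aztec, Finset.mem_filter, Finset.mem_product, Finset.mem_Icc, Finset.mem_Icc,
    and_iff_right_iff_imp, abs_add_abs_le_iff]
  omega

/-- The number `T(n)` of domino tilings of the Aztec diamond of order `n` with the knight's-move
pair removed, for every `n ≥ 2`, according to the residue of `n` modulo `4`. -/
theorem result :
    (∀ m : ℕ, 1 ≤ m → (T (4 * m) : ℚ) =
      2 ^ ((4 * m) * (4 * m + 1) / 2) * (m * x m * (1 + x m) / 2)) ∧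
    (∀ m : ℕ, 1 ≤ m → (T (4 * m + 1) : ℚ) =
      2 ^ ((4 * m + 1) * (4 * m + 2) / 2) * ((2 * m + 1) * x m * (1 - x m) / 4)) ∧
    (∀ m : ℕ, (T (4 * m + 2) : ℚ) =
      2 ^ ((4 * m + 2) * (4 * m + 3) / 2) * ((2 * m + 1) * x m / 4)) ∧
    (∀ m : ℕ, (T (4 * m + 3) : ℚ) =
      2 ^ ((4 * m + 3) * (4 * m + 4) / 2) * ((2 * m + 1) ^ 2 * x m / (8 * (m + 1)))) := by
  have hx0 : ∀ m, 0 ≤ xx m := fun m => by unfold xx; positivity
  have hx1 : ∀ m, xx m ≤ 1 := by
    intro m
    unfold xx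
    have h := Nat.centralBinom_le_four_pow m
    have h2 : (m.centralBinom : ℚ) ≤ 4 ^ m := by exact_mod_cast h
    apply pow_le_one₀ (by positivity)
    rw [div_le_one (by positivity)]
    exact h2
  refine ⟨?_, ?_, ?_, ?_⟩
  · intro m hm
    have h := main_even (2 * m) (by omega)
    rw [ev_e1 m hm, ev_e2, ev_e3 m hm, ev_e4 m hm] at h
    rw [T, D_eq, show 4 * m = 2 * (2 * m) from by ring, h]
    congr 1
    change _ = m * xx m * (1 + xx m) / 2
    rw [show ((4 * m + 1) * xx m - 1) / 4 * (1 - 2 * ((1 - xx m) / 4)) +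
      2 * ((1 + xx m) / 4 * ((1 - xx m) / 4)) = m * xx m * (1 + xx m) / 2 from by ring]
    apply abs_of_nonneg
    have := hx0 m
    positivity
  · intro m hm
    have h := main_odd (2 * m) (by omega)
    rw [ev_o1 m, ev_o2, ev_o3 m, ev_o4 m] at h
    rw [T, D_eq, show 4 * m + 1 = 2 * (2 * m) + 1 from by ring, h]
    rw [show 2 * (2 * m) + 1 + 1 = 4 * m + 2 from by ring]
    congr 1
    change _ = (2 * m + 1) * xx m * (1 - xx m) / 4
    rw [show (- - (((4 * m + 1) * xx m - 1) / 4)) * (1 - 2 * (- - ((1 + xx m) / 4))) +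
      2 * ((- ((1 + xx m) / 4)) * (- ((1 - xx m) / 4))) =
        (2 * m + 1) * xx m * (1 - xx m) / 4 from by ring]
    apply abs_of_nonneg
    have := hx0 m
    have h2 : 0 ≤ 1 - xx m := by linarith [hx1 m]
    positivity
  · intro m
    have h := main_even (2 * m + 1) (by omega)
    rw [od_e1 m, od_e2, od_e3 m, od_e4 m] at h
    rw [T, D_eq, show 4 * m + 2 = 2 * (2 * m + 1) from by ring, h]
    rw [show 2 * (2 * m + 1) + 1 = 4 * m + 3 from by ring]
    congr 1
    change _ = (2 * m + 1) * xx m / 4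
    rw [show ((2 * m + 1) * xx m / 2 - 1 / 4) * (1 - 2 * (1 / 4)) + 2 * (1 / 4 * (1 / 4)) =
        (2 * m + 1) * xx m / 4 from by ring]
    apply abs_of_nonneg
    have := hx0 m
    positivity
  · intro m
    have h := main_odd (2 * m + 1) (by omega)
    rw [od_o1 m, od_o2, od_o3 m, od_o4 m] at h
    rw [T, D_eq, show 4 * m + 3 = 2 * (2 * m + 1) + 1 from by ring, h]
    rw [show 2 * (2 * m + 1) + 1 + 1 = 4 * m + 4 from by ring]
    congr 1
    change _ = (2 * m + 1) ^ 2 * xx m / (8 * (m + 1))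
    have h3 : ((m : ℚ) + 1) ≠ 0 := by positivity
    rw [show (- - ((2 * m + 1) ^ 2 * xx m / (4 * (m + 1)) - 1 / 4)) * (1 - 2 * (- - (1 / 4))) +
      2 * ((- (1 / 4)) * (- (1 / 4))) =
        (2 * m + 1) ^ 2 * xx m / (8 * (m + 1)) from by field_simp; ring]
    apply abs_of_nonneg
    have := hx0 m
    positivity

end Pool.Agent.Results.MP_b90a94_co.KnightPair
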